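import Pool.Agent.Results.MP_fa2474_nt.GenericPairs
import Pool.Agent.V11153.Dil

/-!
# Moments of zeta of every even order with square root remainder, for shifts in almost all directions

For `c ∈ ℝ^n` let `γ = (0, c_1, …, c_n)`. The moment of order `2(n + 1)` with the shifts `γ` is the integral of
`|ζ(1/2 + it)|² ∏_j |ζ(1/2 + i(t + c_j))|²`, and `mainTerm c t` is the main term of the recipe of Conrey, Farmer, Keating,
Rubinstein and Snaith for these shifts (a contour integral). Let `v_m ≥ 1` be a sequence for which `∑ v_m ^ (-δ)` is finite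
for all `δ > 0`, for instance `v_m = b ^ m`. For almost all `c ∈ [0, ∞)^n` the integral over `[0, s v_m]` with the shifts
`(0, v_m c_1, …, v_m c_n)` is the integral of the main term up to `v_m ^ (1/2 + ε)`, for all `ε > 0`.
-/

set_option autoImplicit false

open Complex MeasureTheory Filter

namespace Pool.Agent.Results.MP_07318d_nt.PairsOfShifts

open Pool.Agent.Results.MP_fa2474_nt.GenericPairs (shifts mainTerm)

noncomputable section

/-- `∏_j |ζ(1/2 + i(t + γ_j))|²`, `γ = (0, c_1, …, c_n)` -/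
def M {n : ℕ} (c : Fin n → ℝ) (t : ℝ) : ℝ := ∏ j : Fin (n + 1), ‖riemannZeta (1 / 2 + I * (t + shifts c j))‖ ^ 2

lemma M_eq {n : ℕ} (c : Fin n → ℝ) (t : ℝ) :
    Pool.Agent.Results.MP_fa2474_nt.GenericPairs.Z (shifts c) (shifts c) t = ((M c t : ℝ) : ℂ) := by
  unfold Pool.Agent.Results.MP_fa2474_nt.GenericPairs.Z M
  rw [ofReal_prod]
  refine Finset.prod_congr rfl fun j _ => ?_
  have e1 : (1 / 2 - I * ((t : ℂ) + (shifts c j : ℂ))) =
      (starRingEnd ℂ) (1 / 2 + I * ((t : ℂ) + (shifts c j : ℂ))) := by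
    simp only [map_add, map_mul, conj_I, conj_ofReal, map_div₀, map_one, map_ofNat]
    ring
  rw [e1, riemannZeta_conj, mul_conj, normSq_eq_norm_sq]

/-- **Theorem.** (1) For every `n` and `ε > 0` there is `δ > 0` such that for all sequences `v ≥ 1` with `∑ v_m ^ (-δ)`
finite, all countable sets `V` of real numbers and almost all `c ∈ ℝ^n` with nonnegative coordinates: for all `s ≥ 0` in `V`
and all large `m`, with the shifts `γ = (0, v_m c_1, …, v_m c_n)`, the integral of `∏_j |ζ(1/2 + i(t + γ_j))|²` over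
`[0, s v_m]` differs from the integral of the main term by at most `v_m ^ (1/2 + ε)`. (2) Let `v ≥ 1` be a sequence such that
`∑ v_m ^ (-δ)` is finite for all `δ > 0` and `V` a countable set of real numbers. For every `n`, for almost all `c ∈ ℝ^n`
with nonnegative coordinates this holds for ALL `ε > 0` at once. (3) `v_m = b ^ m`, `b > 1`, has this property. -/
theorem result :
    (∀ (n : ℕ) (ε : ℝ), 0 < ε → ∃ δ : ℝ, 0 < δ ∧ ∀ v : ℕ → ℝ, (∀ m, 1 ≤ v m) → (Summable fun m => (v m) ^ (-δ)) →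
      ∀ V : Set ℝ, V.Countable → ∀ᵐ c : Fin n → ℝ, (∀ j, 0 ≤ c j) → ∀ s ∈ V, 0 ≤ s → ∀ᶠ m in atTop,
        ‖((∫ t in (0:ℝ)..(s * v m), M (v m • c) t : ℝ) : ℂ) - ∫ t in (0:ℝ)..(s * v m), mainTerm (v m • c) t‖ ≤
          (v m) ^ (1 / 2 + ε)) ∧
    (∀ v : ℕ → ℝ, (∀ m, 1 ≤ v m) → (∀ δ : ℝ, 0 < δ → Summable fun m => (v m) ^ (-δ)) →
      ∀ V : Set ℝ, V.Countable → ∀ n : ℕ, ∀ᵐ c : Fin n → ℝ, (∀ j, 0 ≤ c j) → ∀ s ∈ V, 0 ≤ s → ∀ ε : ℝ, 0 < ε →
        ∀ᶠ m in atTop,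
        ‖((∫ t in (0:ℝ)..(s * v m), M (v m • c) t : ℝ) : ℂ) - ∫ t in (0:ℝ)..(s * v m), mainTerm (v m • c) t‖ ≤
          (v m) ^ (1 / 2 + ε)) ∧
    (∀ b δ : ℝ, 1 < b → 0 < δ → Summable fun m : ℕ => ((b ^ m : ℝ)) ^ (-δ)) := by
  have part1 : ∀ (n : ℕ) (ε : ℝ), 0 < ε → ∃ δ : ℝ, 0 < δ ∧ ∀ v : ℕ → ℝ, (∀ m, 1 ≤ v m) →
      (Summable fun m => (v m) ^ (-δ)) →
      ∀ V : Set ℝ, V.Countable → ∀ᵐ c : Fin n → ℝ, (∀ j, 0 ≤ c j) → ∀ s ∈ V, 0 ≤ s → ∀ᶠ m in atTop,
        ‖((∫ t in (0:ℝ)..(s * v m), M (v m • c) t : ℝ) : ℂ) - ∫ t in (0:ℝ)..(s * v m), mainTerm (v m • c) t‖ ≤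
          (v m) ^ (1 / 2 + ε) := by
    intro n ε hε
    obtain ⟨δ, T₀, hδ, h⟩ := Pool.Agent.Results.MP_fa2474_nt.GenericPairs.result n (ε / 2) (by linarith)
    refine ⟨δ, hδ, fun v hv hs V hV => ?_⟩
    have ht := Pool.Agent.V11153.Dil.tendsto_v hδ hv hs
    have hall : ∀ᵐ c : Fin n → ℝ, ∀ s ∈ V, ∀ A : ℕ, 0 ≤ s → 1 ≤ A → s ≤ A → ∀ᶠ m in atTop, T₀ ≤ A * v m →
        v m • c ∉ {c : Fin n → ℝ | (∀ j, 0 ≤ c j ∧ c j ≤ A * v m) ∧ (A * v m) ^ (1 / 2 + ε / 2) <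
          ‖(∫ t in (0:ℝ)..(s * v m), Pool.Agent.Results.MP_fa2474_nt.GenericPairs.Z (shifts c) (shifts c) t) -
            ∫ t in (0:ℝ)..(s * v m), mainTerm c t‖} := by
      rw [ae_ball_iff hV]
      intro s _
      rw [ae_all_iff]
      intro A
      by_cases hA : 0 ≤ s ∧ 1 ≤ A ∧ s ≤ A
      swap
      · exact Eventually.of_forall fun c g1 g2 g3 => absurd ⟨g1, g2, g3⟩ hA
      filter_upwards [Pool.Agent.V11153.Dil.core hv hs A hA.2.1 (T₀ := T₀)
        (fun m => {c : Fin n → ℝ | (∀ j, 0 ≤ c j ∧ c j ≤ A * v m) ∧ (A * v m) ^ (1 / 2 + ε / 2) <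
          ‖(∫ t in (0:ℝ)..(s * v m), Pool.Agent.Results.MP_fa2474_nt.GenericPairs.Z (shifts c) (shifts c) t) -
            ∫ t in (0:ℝ)..(s * v m), mainTerm c t‖})
        (fun m hm => by
          refine (h (A * v m) (s * v m) hm (mul_nonneg hA.1 (by linarith [hv m]))
            (mul_le_mul_of_nonneg_right hA.2.2 (by linarith [hv m]))).trans (le_of_eq ?_)
          rw [Fintype.card_fin])] with c hc _ _ _
      exact hc
    filter_upwards [hall] with c hc hc0 s hs' hs0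
    obtain ⟨A, hA⟩ := exists_nat_ge (max s (max 1 (∑ i, |c i|)))
    have hA1 : s ≤ A := (le_max_left _ _).trans hA
    have hA2 : (1 : ℝ) ≤ A := (le_max_left _ _).trans ((le_max_right _ _).trans hA)
    have hA3 : ∑ i, |c i| ≤ A := (le_max_right _ _).trans ((le_max_right _ _).trans hA)
    have hA2' : 1 ≤ A := by exact_mod_cast hA2
    filter_upwards [hc s hs' A hs0 hA2' hA1,
      Pool.Agent.V11153.Dil.final_bound (show 1 / 2 + ε / 2 < 1 / 2 + ε by linarith) hv ht A,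
      ht.eventually_ge_atTop T₀] with m h1 h2 h3
    have hvn : 0 < v m := lt_of_lt_of_le one_pos (hv m)
    have hT : T₀ ≤ A * v m := h3.trans (by nlinarith)
    by_contra hcon
    push Not at hcon
    refine h1 hT ⟨fun j => ⟨mul_nonneg hvn.le (hc0 j), ?_⟩, ?_⟩
    · rw [Pi.smul_apply, smul_eq_mul, mul_comm]
      apply mul_le_mul_of_nonneg_right _ hvn.le
      exact (le_abs_self _).trans ((Finset.single_le_sum (f := fun i => |c i|) (fun i _ => abs_nonneg _)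
        (Finset.mem_univ j)).trans hA3)
    · refine lt_of_le_of_lt h2 ?_
      simp only [M_eq, intervalIntegral.integral_ofReal]
      exact hcon
  refine ⟨part1, fun v hv hs V hV n => ?_, fun b δ hb hδ => Pool.Agent.V11153.Dil.summable_geom hb hδ⟩
  have h1 : ∀ᵐ c : Fin n → ℝ, ∀ j : ℕ, (∀ i, 0 ≤ c i) → ∀ s ∈ V, 0 ≤ s → ∀ᶠ m in atTop,
        ‖((∫ t in (0:ℝ)..(s * v m), M (v m • c) t : ℝ) : ℂ) - ∫ t in (0:ℝ)..(s * v m), mainTerm (v m • c) t‖ ≤
          (v m) ^ (1 / 2 + 1 / ((j : ℝ) + 1)) := by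
    rw [ae_all_iff]
    intro j
    obtain ⟨δ, hδ, h⟩ := part1 n (1 / ((j : ℝ) + 1)) (by positivity)
    exact h v hv (hs δ hδ) V hV
  filter_upwards [h1] with c hc hc0 s hsV hs0 ε hε
  obtain ⟨j, hj⟩ := exists_nat_one_div_lt hε
  filter_upwards [hc j hc0 s hsV hs0] with m hm
  exact hm.trans (Real.rpow_le_rpow_of_exponent_le (hv m) (by linarith))

end

end Pool.Agent.Results.MP_07318d_nt.PairsOfShifts
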