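import Pool.Agent.V1167.PP.Main

set_option autoImplicit false

/-!
MP_07318d_nt. The integral in the Euler product `A_k` as the law of the phases of the primes.

The factor at `p` of `A_k(0, …, 0)` is `(1 - 1/p)^(k²) ∫_0^1 |1 - e(θ) / √p|^(-2k) dθ`. Let `k ≥ 2` be an
integer, `δ(T) → 0` and `δ(T) log T → ∞`. Off a set of measure `o(δ^(2k) T)` where
`|ζ(1/2 + δ + it)| > δ^(-1-k/2)`, the `2k`-th moment on the line `Re s = 1/2 + δ` is asymptotic to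
`A_k(0, …, 0) (2δ)^(-k²) T` and, with respect to the weight `|ζ|^(2k)`, the family `(p^(it))_p` converges
in law to independent points `e(θ_p)`, `θ_p` having as density the normalised integrand
`|1 - e(θ) / √p|^(-2k)` of `A_k(0, …, 0)`, asymptotically independent of `log |ζ|`.
-/

open Filter MeasureTheory Topology

namespace Pool.Agent.Results.MP_07318d_nt.PrimePhases

/-- `|ζ(1/2 + δ + it)|`. -/
noncomputable def Z (δ t : ℝ) : ℝ := ‖riemannZeta (((1 / 2 + δ : ℝ) : ℂ) + t * Complex.I)‖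

/-- `log |ζ|` minus `s log (1/(2δ))`, divided by `√((1/2) log (1/(2δ)))`. -/
noncomputable def N (s δ t : ℝ) : ℝ :=
  (Real.log (Z δ t) - s * Real.log (1 / (2 * δ))) / Real.sqrt (Real.log (1 / (2 * δ)) / 2)

/-- `e(x) = exp(2πix)`. -/
noncomputable def e (x : ℝ) : ℂ := Complex.exp (2 * Real.pi * Complex.I * x)

/-- The `2s`-th power `|1 - e(x) / √p|^(-2s)` of the Euler factor at `p`. -/
noncomputable def euler (s : ℝ) (p : ℕ) (x : ℝ) : ℝ := ‖1 - e x / (Real.sqrt p : ℂ)‖ ^ (-(2 * s))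

/-- The probability measure on `[0, 1]` whose density is proportional to `|1 - e(x) / √p|^(-2s)`. -/
noncomputable def phaseLaw (s : ℝ) (p : ℕ) : Measure ℝ :=
  (volume.restrict (Set.Icc (0:ℝ) 1)).withDensity
    fun x => ENNReal.ofReal (euler s p x / ∫ y in Set.Icc (0:ℝ) 1, euler s p y)

/-- The value `A_k(0, …, 0) = ∏_p (1 - 1/p)^(k²) ∫_0^1 |1 - e(θ) / √p|^(-2k) dθ` at the origin of the
Euler product of the problem. -/
noncomputable def A0 (k : ℕ) : ℝ :=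
  ∏' p : Nat.Primes, ((1 - 1 / (p : ℝ)) ^ (k ^ 2) * ∫ θ in Set.Icc (0:ℝ) 1, euler k p θ)

lemma A0_eq {k : ℕ} (hk : 2 ≤ k) : A0 k = Pool.Agent.H306R2.aF k := by
  unfold A0 Pool.Agent.H306R2.aF
  refine tprod_congr fun p => ?_
  have hk0 : (0:ℝ) < k := by exact_mod_cast (by omega : 0 < k)
  have h1 : ∫ θ in Set.Icc (0:ℝ) 1, euler k p θ = ∑' i : ℕ, Pool.Agent.V1167.PP.cs k i ^ 2 * (1 / (p:ℝ)) ^ i :=
    Pool.Agent.V1167.PP.ef_mass hk0 p.2
  rw [h1]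
  congr 1
  have h := Real.rpow_natCast (1 - 1 / (p : ℝ)) (k ^ 2)
  rw [Nat.cast_pow] at h
  exact h.symm

/-- Let `k ≥ 2` be an integer, `δ(T) → 0` and `δ(T) log T → ∞`. There are sets `E(T) ⊆ [0, T]` of measure
`o(δ^(2k) T)` on which `|ζ(1/2 + δ + it)| > δ^(-1-k/2)`, such that for all bounded continuous
`F : ℝ → ℝ` and all continuous functions `G` of the family `(p^(it))_p` indexed by all the primes

`(2δ)^(k²) (1/T) ∫_{[0,T] \ E(T)} |ζ|^(2k) F(N) G((p^(it))_p) dt → A_k(0,…,0) (∫ F dγ) 𝔼 G((e(θ_p))_p)`,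

where `ζ = ζ(1/2 + δ + it)`, `N = (log |ζ| - k log (1/(2δ))) / √((1/2) log (1/(2δ)))`, `γ` is the
standard normal law and the `θ_p` are independent with laws `phaseLaw k p`. -/
theorem result (k : ℕ) (hk : 2 ≤ k) (δ : ℝ → ℝ) (hδ : Tendsto δ atTop (𝓝 0))
    (hδL : Tendsto (fun T : ℝ => δ T * Real.log T) atTop atTop) :
    ∃ E : ℝ → Set ℝ,
      (∀ T, MeasurableSet (E T) ∧ E T ⊆ Set.Icc 0 T ∧ ∀ t ∈ E T, (δ T) ^ (-(1 + (k:ℝ) / 2)) < Z (δ T) t) ∧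
      Tendsto (fun T => (volume (E T)).toReal / (T * (δ T) ^ (2 * k))) atTop (𝓝 0) ∧ 0 < A0 k ∧
      ∀ F : BoundedContinuousFunction ℝ ℝ, ∀ G : (Nat.Primes → ℂ) → ℂ, Continuous G →
        Tendsto (fun T : ℝ => (((2 * δ T) ^ (k ^ 2) / T : ℝ) : ℂ) *
          ∫ t in Set.Icc 0 T \ E T, ((Z (δ T) t ^ (2 * k) * F (N k (δ T) t) : ℝ) : ℂ) *
            G (fun p => ((p : ℕ) : ℂ) ^ ((t:ℂ) * Complex.I))) atTop
          (𝓝 (((A0 k * ∫ x, F x ∂(ProbabilityTheory.gaussianReal 0 1) : ℝ) : ℂ) *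
            ∫ θ, G (fun p => e (θ p)) ∂(Measure.infinitePi fun p : Nat.Primes => phaseLaw k p))) := by
  have hk2 : (2:ℝ) ≤ k := by exact_mod_cast hk
  obtain ⟨E, hE, hvol, hm⟩ := Pool.Agent.V1167.PP.prime_phases hδ hδL (κ := (k:ℝ) / 2 - 1) (by linarith)
  have e1 : (4 + 4 * ((k:ℝ) / 2 - 1) : ℝ) = ((2 * k : ℕ) : ℝ) := by push_cast; ring
  have e2 : (-(2 + ((k:ℝ) / 2 - 1)) : ℝ) = -(1 + (k:ℝ) / 2) := by ring
  rw [e1] at hvol
  simp_rw [Real.rpow_natCast] at hvol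
  obtain ⟨h1, h2⟩ := hm k (by linarith) (Or.inr (by linarith))
  rw [A0_eq hk]
  refine ⟨E, fun T => ⟨(hE T).1, (hE T).2.1, fun t ht => ?_⟩, hvol, h1, fun F G hG => ?_⟩
  · rw [← e2]; exact (hE T).2.2 t ht
  have h3 := h2 F G hG
  have e3 : ((k:ℝ) ^ 2) = ((k ^ 2 : ℕ) : ℝ) := by push_cast; rfl
  have e4 : (2 * (k:ℝ)) = ((2 * k : ℕ) : ℝ) := by push_cast; rfl
  rw [e3, e4] at h3
  simp_rw [Real.rpow_natCast] at h3
  exact h3

end Pool.Agent.Results.MP_07318d_nt.PrimePhases
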